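import Pool.Agent.Helper94.UP.Sheet

/-! Row A4 of sheet UP: local approximations glued over a countable cover. -/

open scoped ZeroAtInfty ContDiff NNReal
open Set Filter Topology MeasureTheory

namespace Pool.Agent.Helper94.UP

theorem a4_e {κ ε S M : ℝ} (hκ : 0 < κ) (hε : 0 < ε) (hS : 0 ≤ S) (hM : 0 < M) (n : ℕ) :
    ∃ e : ℝ, 0 < e ∧ e ≤ ε ∧ e * S * M ≤ κ * (1 / 2) ^ (n + 1) := by
  have hSM : 0 ≤ S * M := mul_nonneg hS hM.le
  have hp : 0 < κ * (1 / 2) ^ (n + 1) := by positivity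
  refine ⟨min ε (κ * (1 / 2) ^ (n + 1) / (S * M + 1)), lt_min hε (by positivity),
    min_le_left _ _, ?_⟩
  have h1 : min ε (κ * (1 / 2) ^ (n + 1) / (S * M + 1)) ≤
      κ * (1 / 2) ^ (n + 1) / (S * M + 1) := min_le_right _ _
  calc min ε (κ * (1 / 2) ^ (n + 1) / (S * M + 1)) * S * M
      = min ε (κ * (1 / 2) ^ (n + 1) / (S * M + 1)) * (S * M) := by ring
    _ ≤ κ * (1 / 2) ^ (n + 1) / (S * M + 1) * (S * M) := mul_le_mul_of_nonneg_right h1 hSM
    _ = κ * (1 / 2) ^ (n + 1) * ((S * M) / (S * M + 1)) := by ring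
    _ ≤ κ * (1 / 2) ^ (n + 1) * 1 := by
        apply mul_le_mul_of_nonneg_left _ hp.le
        rw [div_le_one (by positivity)]
        linarith
    _ = _ := mul_one _

theorem stA4.{u} (h2 : ST_A2.{u}) (h3 : ST_A3.{u}) (h4 : ST_GL.{u}) : ST_A4.{u} := by
  intro k X _ _ _ D hk hD hApp q M hM hq1 hq2 g L0 κ ε hL0 hκ hε hg hgL
  have hκ2 : 0 < κ / 2 := by linarith
  have H3 := h3 hD hApp q M hM hq1 hq2 g L0 (κ / 2) hL0 hκ2 hg hgL
  choose r hr H using H3
  have H2 := fun c : X => h2 hk hD hApp c (r c) (hr c)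
  choose b B hB hbc hb01 hbL hb1 hb0 using H2
  haveI : SecondCountableTopology X := UniformSpace.secondCountable_of_separable X
  obtain ⟨s, hs, hsu⟩ := TopologicalSpace.countable_cover_nhds
    (f := fun c : X => Metric.ball c (r c / 2))
    (fun c => Metric.ball_mem_nhds c (half_pos (hr c)))
  have hsn : s.Nonempty := by
    have h0 : (0 : X) ∈ ⋃ x ∈ s, Metric.ball x (r x / 2) := by rw [hsu]; exact mem_univ _
    simp only [mem_iUnion] at h0
    obtain ⟨x, hx, -⟩ := h0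
    exact ⟨x, hx⟩
  obtain ⟨c, hc⟩ := hs.exists_eq_range hsn
  have hcov : ∀ x, ∃ n, ‖x - c n‖ < r (c n) / 2 := by
    intro x
    have h0 : x ∈ ⋃ y ∈ s, Metric.ball y (r y / 2) := by rw [hsu]; exact mem_univ _
    simp only [mem_iUnion] at h0
    obtain ⟨y, hy, hxy⟩ := h0
    rw [hc] at hy
    obtain ⟨n, rfl⟩ := hy
    exact ⟨n, by rwa [mem_ball_iff_norm] at hxy⟩
  have He : ∀ n : ℕ, ∃ e : ℝ, 0 < e ∧ e ≤ ε ∧
      e * (∑ m ∈ Finset.range (n + 1), B (c m)) * M ≤ κ / 2 * (1 / 2) ^ (n + 1) := fun n =>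
    a4_e hκ2 hε (Finset.sum_nonneg fun m _ => hB (c m)) hM n
  choose e he0 heε heM using He
  have Hh := fun n : ℕ => H (c n) (e n) (he0 n)
  choose h hhc hhL hhg using Hh
  have hL1 : 0 ≤ L0 + κ / 2 := by linarith
  obtain ⟨R1, R2, R3⟩ := h4 (k := k) q M hM hq1 hq2 g (fun n => b (c n)) (fun n => B (c n)) c
    (fun n => r (c n)) h e (L0 + κ / 2) (κ / 2) ε hL1 hκ2 hε (fun n => hbc (c n))
    (fun n => hb01 (c n)) (fun n => hB (c n)) (fun n => hbL (c n)) (fun n => hr (c n))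
    (fun n => hb1 (c n)) (fun n => hb0 (c n)) hcov hhc hhL hhg he0 heε heM
  refine ⟨Kg (fun n => b (c n)) h, R1, fun x y => ?_, R3⟩
  have := R2 x y
  have e1 : L0 + κ / 2 + κ / 2 = L0 + κ := by ring
  rwa [e1] at this

end Pool.Agent.Helper94.UP
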